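import Pool.Agent.H11.LD.Targets

set_option autoImplicit false

noncomputable section

namespace Pool.Agent.H13.LD
open Pool.Agent.H11.LD Pool.Agent.H9.Lap
open Finset

theorem sum_inv (x : ℝ) (hx : Real.sin x ≠ 0) (h2 : Real.sin (2 * x) ≠ 0) (g : ℕ)
    (hp : ∀ i : ℕ, i < g → Real.sin ((2 * i + 1) * x) ≠ 0) :
    ∀ n : ℕ, n < g → ∑ i ∈ range n,
      1 / (Real.sin ((2 * i + 1) * x) * Real.sin ((2 * (i + 1 : ℕ) + 1) * x)) =
      Real.sin (2 * n * x) / (Real.sin (2 * x) * (Real.sin x * Real.sin ((2 * n + 1) * x))) := by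
  intro n
  induction n with
  | zero => intro _; simp
  | succ n ih =>
    intro hn
    have h1 := hp n (by omega)
    have h3 := hp (n + 1) hn
    rw [sum_range_succ, ih (by omega)]
    push_cast at h3 ⊢
    rw [div_add_div _ _ (mul_ne_zero h2 (mul_ne_zero hx h1)) (mul_ne_zero h1 h3),
      div_eq_div_iff (mul_ne_zero (mul_ne_zero h2 (mul_ne_zero hx h1)) (mul_ne_zero h1 h3))
      (mul_ne_zero h2 (mul_ne_zero hx h3))]
    have key : Real.sin (2 * n * x) * Real.sin ((2 * (n + 1) + 1) * x) +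
        Real.sin (2 * x) * Real.sin x =
        Real.sin (2 * (n + 1) * x) * Real.sin ((2 * n + 1) * x) := by
      have e1 : (2 * n * x : ℝ) = (2 * n + 1) * x - x := by ring
      have e2 : ((2 * (n + 1) + 1) * x : ℝ) = (2 * n + 1) * x + 2 * x := by ring
      have e3 : (2 * (n + 1) * x : ℝ) = (2 * n + 1) * x + x := by ring
      rw [e1, e2, e3, Real.sin_sub, Real.sin_add, Real.sin_add, Real.sin_two_mul,
        Real.cos_two_mul']
      have hs := Real.sin_sq_add_cos_sq x
      have hs2 := Real.sin_sq_add_cos_sq ((2 * n + 1) * x)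
      set a := Real.sin ((2 * n + 1) * x)
      set b := Real.cos ((2 * n + 1) * x)
      set s := Real.sin x
      set c := Real.cos x
      have hb : b ^ 2 = 1 - a ^ 2 := by linarith
      have hc : c ^ 2 = 1 - s ^ 2 := by linarith
      ring_nf
      have h4 : c ^ 3 = c * (1 - s ^ 2) := by rw [← hc]; ring
      simp only [hb, hc, h4]
      ring
    linear_combination (Real.sin (2 * x) * Real.sin x * Real.sin ((2 * n + 1) * x) *
      Real.sin ((2 * (n + 1) + 1) * x)) * key

theorem part (z w : ℕ → ℝ) (L : ℝ) (n : ℕ) (hz : ∀ i, i ≤ n → z i ≠ 0)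
    (h0 : z 1 = (L - 1) * z 0) (hr : ∀ i, z i + z (i + 2) = (L - 2) * z (i + 1)) :
    ∑ i ∈ range n, ((w i + w (i + 1)) ^ 2 +
      z i * z (i + 1) * (w i / z i - w (i + 1) / z (i + 1)) ^ 2) =
      L * ∑ i ∈ range n, w i ^ 2 + (L - 1 - z (n + 1) / z n) * w n ^ 2 := by
  induction n with
  | zero =>
    have := hz 0 le_rfl
    rw [zero_add, h0]
    field_simp
    simp
  | succ n ih =>
    have h1 := hz n (by omega)
    have h2 := hz (n + 1) le_rfl
    rw [sum_range_succ, ih (fun i hi => hz i (by omega)), sum_range_succ]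
    have h3 : z (n + 1 + 1) = (L - 2) * z (n + 1) - z n := by
      have := hr n
      linarith
    rw [h3]
    field_simp
    ring

theorem pf_CU (hSIN : T_SIN) : T_CU := by
  intro g y hg hodd
  obtain ⟨hpos, -, hrec, h1, hend, -⟩ := hSIN g (by omega)
  obtain ⟨m, hm⟩ := hodd
  have hgR : (0 : ℝ) < g := by exact_mod_cast (by omega : 0 < g)
  set x : ℝ := Real.pi / (2 * g) with hx
  have hsn : ∀ i : ℕ, sn g i = Real.sin ((2 * i + 1) * x) := by
    intro i
    unfold sn
    congr 1
    rw [hx]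
    ring
  set L : ℝ := 4 * Real.cos (Real.pi / (2 * g)) ^ 2 with hL
  have hL2 : 2 * Real.cos (Real.pi / g) = L - 2 := by
    have : (Real.pi / g : ℝ) = 2 * (Real.pi / (2 * g)) := by
      field_simp
    rw [this, Real.cos_two_mul, hL]
    ring
  set w : ℕ → ℝ := fun i => (-1) ^ i * y i with hw
  have hw2 : ∀ i, w i ^ 2 = y i ^ 2 := by
    intro i
    simp only [hw]
    rw [mul_pow, ← pow_mul, mul_comm i 2, pow_mul]
    norm_num
  have hwd : ∀ i, (y i - y (i + 1)) ^ 2 = (w i + w (i + 1)) ^ 2 := by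
    intro i
    simp only [hw]
    have h : ((-1 : ℝ) ^ i) ^ 2 = 1 := by
      rw [← pow_mul, mul_comm i 2, pow_mul]
      norm_num
    rw [pow_succ]
    linear_combination (-(y i - y (i + 1)) ^ 2) * h
  have hwe : (y (g - 1) - y 0) ^ 2 = (w (g - 1) - w 0) ^ 2 := by
    simp only [hw]
    have : g - 1 = 2 * m := by omega
    rw [this, pow_mul]
    norm_num
  have hzpos : ∀ i, i < g → 0 < sn g i := hpos
  have hzg : sn g g = - sn g (g - 1) := by
    rw [hend, hsn, hsn]
    have : ((2 * (g : ℝ) + 1) * x) = x + Real.pi := by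
      rw [hx]
      field_simp
      ring
    rw [this, Real.sin_add_pi]
    simp
  have hP := part (sn g) w L (g - 1) (fun i hi => (hzpos i (by omega)).ne')
    (by rw [h1, hL2]; ring) (by intro i; rw [hrec, hL2])
  have hgg : g - 1 + 1 = g := by omega
  rw [hgg, hzg, neg_div, div_self (hzpos (g - 1) (by omega)).ne'] at hP
  have hsum : ∑ i ∈ range g, y i ^ 2 = ∑ i ∈ range (g - 1), w i ^ 2 + w (g - 1) ^ 2 := by
    conv_lhs => rw [← hgg]
    rw [sum_range_succ]
    simp only [hw2]
  have hx0 : Real.sin x ≠ 0 := by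
    have := (hzpos 0 (by omega)).ne'
    rw [hsn] at this
    simpa using this
  have hx2 : Real.sin (2 * x) ≠ 0 := by
    apply ne_of_gt
    apply Real.sin_pos_of_pos_of_lt_pi
    · rw [hx]; positivity
    · rw [hx]
      have h3 : (3 : ℝ) ≤ g := by exact_mod_cast hg
      have : (2 * (Real.pi / (2 * g)) : ℝ) = Real.pi / g := by field_simp
      rw [this, div_lt_iff₀ hgR]
      nlinarith [Real.pi_pos]
  have hI : ∑ i ∈ range (g - 1), 1 / (sn g i * sn g (i + 1)) = 1 / sn g 0 ^ 2 := by
    have h := sum_inv x hx0 hx2 g (by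
      intro i hi
      rw [← hsn]
      exact (hzpos i hi).ne') (g - 1) (by omega)
    have e : ∀ i ∈ range (g - 1), 1 / (sn g i * sn g (i + 1)) =
        1 / (Real.sin ((2 * i + 1) * x) * Real.sin ((2 * (i + 1 : ℕ) + 1) * x)) := by
      intro i _
      rw [hsn, hsn]
    rw [sum_congr rfl e, h]
    have hc : ((g - 1 : ℕ) : ℝ) = g - 1 := by
      rw [Nat.cast_sub (by omega)]
      simp
    rw [hc]
    have e1 : (2 * ((g : ℝ) - 1) * x) = Real.pi - 2 * x := by
      rw [hx]; field_simp
    have e2 : ((2 * ((g : ℝ) - 1) + 1) * x) = Real.pi - x := by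
      rw [hx]; field_simp; ring
    rw [e1, e2, Real.sin_pi_sub, Real.sin_pi_sub, hsn]
    simp only [Nat.cast_zero, mul_zero, zero_add, one_mul]
    field_simp
  have hCS : (∑ i ∈ range (g - 1), (w i / sn g i - w (i + 1) / sn g (i + 1))) ^ 2 ≤
      (∑ i ∈ range (g - 1), sn g i * sn g (i + 1) *
        (w i / sn g i - w (i + 1) / sn g (i + 1)) ^ 2) *
      ∑ i ∈ range (g - 1), 1 / (sn g i * sn g (i + 1)) := by
    apply sum_sq_le_sum_mul_sum_of_sq_eq_mul
    · intro i hi
      rw [mem_range] at hi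
      have a := hzpos i (by omega)
      have b := hzpos (i + 1) (by omega)
      positivity
    · intro i hi
      rw [mem_range] at hi
      have a := hzpos i (by omega)
      have b := hzpos (i + 1) (by omega)
      positivity
    · intro i hi
      rw [mem_range] at hi
      have a := (hzpos i (by omega)).ne'
      have b := (hzpos (i + 1) (by omega)).ne'
      field_simp
  rw [sum_range_sub' (fun i => w i / sn g i), hI] at hCS
  have hz0 := hzpos 0 (by omega)
  rw [hend, mul_one_div, le_div_iff₀ (by positivity)] at hCS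
  have hfin : (w (g - 1) - w 0) ^ 2 ≤ ∑ i ∈ range (g - 1), sn g i * sn g (i + 1) *
        (w i / sn g i - w (i + 1) / sn g (i + 1)) ^ 2 := by
    refine le_trans (le_of_eq ?_) hCS
    field_simp
    ring
  rw [sum_add_distrib] at hP
  rw [hwe, hsum, sum_congr rfl (fun i _ => hwd i)]
  nlinarith [hP, hfin]

end Pool.Agent.H13.LD
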